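import Pool.Agent.Q278.GC.Stm

/-!
Job GC-GC of project GC (helper278): comparison of two centred Gaussian laws.
-/

open MeasureTheory Filter Topology ProbabilityTheory
open scoped RealInnerProductSpace Matrix

namespace Pool.Agent.Q241.GC

variable {k : ℕ}

/-- sums of covariance matrices -/
lemma mg_add {S T : Matrix (Fin k) (Fin k) ℝ} (hS : S.PosSemidef) (hT : T.PosSemidef) :
    multivariateGaussian (0 : EuclideanSpace ℝ (Fin k)) (S + T) =
      (multivariateGaussian 0 S) ∗ (multivariateGaussian 0 T) := by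
  apply Measure.ext_of_charFun
  ext t
  rw [charFun_conv, charFun_multivariateGaussian (hS.add hT), charFun_multivariateGaussian hS,
    charFun_multivariateGaussian hT, ← Complex.exp_add]
  congr 1
  rw [Matrix.add_mulVec, dotProduct_add, inner_zero_right]
  push_cast
  ring

lemma mg_sq (D : Matrix (Fin k) (Fin k) ℝ) (hD : D.PosSemidef) :
    Integrable (fun y : EuclideanSpace ℝ (Fin k) => ‖y‖ ^ 2) (multivariateGaussian 0 D) ∧
    ∫ y, ‖y‖ ^ 2 ∂(multivariateGaussian (0 : EuclideanSpace ℝ (Fin k)) D) = ∑ i, D i i := by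
  have hL2 : MemLp (id : EuclideanSpace ℝ (Fin k) → EuclideanSpace ℝ (Fin k)) 2
      (multivariateGaussian 0 D) := IsGaussian.memLp_two_id
  have hi : ∀ i : Fin k, MemLp (fun y : EuclideanSpace ℝ (Fin k) => y i) 2
      (multivariateGaussian 0 D) := by
    intro i
    refine hL2.of_le (by fun_prop) ?_
    filter_upwards with y
    exact PiLp.norm_apply_le y i
  have hint : ∀ i : Fin k, Integrable (fun y : EuclideanSpace ℝ (Fin k) => y i ^ 2)
      (multivariateGaussian 0 D) := fun i => (hi i).integrable_sq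
  have h0 : ∀ i : Fin k, ∫ y : EuclideanSpace ℝ (Fin k), y i ∂(multivariateGaussian 0 D) = 0 := by
    intro i
    have h1 := (EuclideanSpace.proj (𝕜 := ℝ) i).integral_comp_comm
      (μ := multivariateGaussian (0 : EuclideanSpace ℝ (Fin k)) D)
      (φ := fun y : EuclideanSpace ℝ (Fin k) => y) IsGaussian.integrable_fun_id
    rw [integral_id_multivariateGaussian, map_zero] at h1
    exact h1
  have hv : ∀ i : Fin k, ∫ y : EuclideanSpace ℝ (Fin k), y i ^ 2 ∂(multivariateGaussian 0 D) =
      D i i := by
    intro i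
    rw [← variance_eval_multivariateGaussian (μ := 0) hD i]
    exact (variance_of_integral_eq_zero (Measurable.aemeasurable (by fun_prop)) (h0 i)).symm
  have hn : ∀ y : EuclideanSpace ℝ (Fin k), ‖y‖ ^ 2 = ∑ i, y i ^ 2 := fun y =>
    EuclideanSpace.real_norm_sq_eq y
  constructor
  · simp_rw [hn]
    exact integrable_finsetSum _ fun i _ => hint i
  · simp_rw [hn]
    rw [integral_finsetSum _ fun i _ => hint i]
    exact Finset.sum_congr rfl fun i _ => hv i

/-- the first moment -/
lemma mg_norm (D : Matrix (Fin k) (Fin k) ℝ) (hD : D.PosSemidef) :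
    Integrable (fun y : EuclideanSpace ℝ (Fin k) => ‖y‖) (multivariateGaussian 0 D) ∧
    ∫ y, ‖y‖ ∂(multivariateGaussian (0 : EuclideanSpace ℝ (Fin k)) D) ≤
      Real.sqrt (∑ i, D i i) := by
  obtain ⟨h1, h2⟩ := mg_sq D hD
  have hL2 : MemLp (fun y : EuclideanSpace ℝ (Fin k) => ‖y‖) 2 (multivariateGaussian 0 D) :=
    (IsGaussian.memLp_two_id (μ := multivariateGaussian (0 : EuclideanSpace ℝ (Fin k)) D)).norm
  refine ⟨hL2.integrable (by norm_num), ?_⟩
  rw [← h2]
  apply Real.le_sqrt_of_sq_le
  have h3 := variance_eq_sub hL2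
  have h4 := variance_nonneg (fun y : EuclideanSpace ℝ (Fin k) => ‖y‖)
    (multivariateGaussian 0 D)
  have h5 : (multivariateGaussian (0 : EuclideanSpace ℝ (Fin k)) D)[(fun y => ‖y‖) ^ 2] =
      ∫ y, ‖y‖ ^ 2 ∂(multivariateGaussian (0 : EuclideanSpace ℝ (Fin k)) D) := rfl
  rw [h5] at h3
  linarith

/-- adding a covariance matrix -/
lemma step {S D : Matrix (Fin k) (Fin k) ℝ} (hS : S.PosSemidef) (hD : D.PosSemidef)
    (φ : EuclideanSpace ℝ (Fin k) → ℝ) (hφ : ∀ x, |φ x| ≤ 1) (hL : LipschitzWith 1 φ) :
    |∫ x, φ x ∂(multivariateGaussian 0 (S + D)) - ∫ x, φ x ∂(multivariateGaussian 0 S)| ≤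
      Real.sqrt (∑ i, D i i) := by
  obtain ⟨h1, h2⟩ := mg_norm D hD
  have hb : ∀ x, ‖φ x‖ ≤ 1 := hφ
  have hm : Continuous φ := hL.continuous
  have hbi : ∀ (μ : Measure (EuclideanSpace ℝ (Fin k))) [IsProbabilityMeasure μ],
      Integrable φ μ := by
    intro μ _
    exact (integrable_const (1 : ℝ)).mono hm.aestronglyMeasurable
      (by filter_upwards with x; simpa using hφ x)
  have hbx : ∀ (x : EuclideanSpace ℝ (Fin k)) (μ : Measure (EuclideanSpace ℝ (Fin k)))
      [IsProbabilityMeasure μ], Integrable (fun y => φ (x + y)) μ := by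
    intro x μ _
    exact (integrable_const (1 : ℝ)).mono (hm.comp (continuous_const.add continuous_id)).aestronglyMeasurable
      (by filter_upwards with y; simpa using hφ (x + y))
  rw [mg_add hS hD, integral_conv (hbi _)]
  set μ := multivariateGaussian (0 : EuclideanSpace ℝ (Fin k)) S with hμ
  set ν := multivariateGaussian (0 : EuclideanSpace ℝ (Fin k)) D with hν
  have hmain : ∀ x, |(∫ y, φ (x + y) ∂ν) - φ x| ≤ Real.sqrt (∑ i, D i i) := by
    intro x
    have e : (∫ y, φ (x + y) ∂ν) - φ x = ∫ y, (φ (x + y) - φ x) ∂ν := by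
      rw [integral_sub (hbx x ν) (integrable_const _)]
      simp
    rw [e]
    refine le_trans (abs_integral_le_integral_abs) (le_trans ?_ h2)
    refine integral_mono_of_nonneg ?_ h1 ?_
    · filter_upwards with y
      exact abs_nonneg _
    · filter_upwards with y
      have := hL.dist_le_mul (x + y) x
      rw [Real.dist_eq, dist_eq_norm, NNReal.coe_one, one_mul, add_sub_cancel_left] at this
      exact this
  have hint : Integrable (fun x => ∫ y, φ (x + y) ∂ν) μ := by
    refine (integrable_const (1 : ℝ)).mono ?_ ?_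
    · have hc : Continuous (fun x => ∫ y, φ (x + y) ∂ν) := by
        refine continuous_of_dominated (F := fun x y => φ (x + y)) (bound := fun _ => 1) ?_ ?_ ?_ ?_
        · intro x
          exact (hm.comp (continuous_const.add continuous_id)).aestronglyMeasurable
        · intro x
          filter_upwards with y
          exact hb _
        · exact integrable_const _
        · filter_upwards with y
          exact hm.comp (continuous_id.add continuous_const)
      exact hc.aestronglyMeasurable
    · filter_upwards with x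
      have h3 := norm_integral_le_of_norm_le_const (μ := ν) (f := fun y => φ (x + y)) (C := 1)
        (by filter_upwards with y; exact hb _)
      simpa using h3
  rw [← integral_sub hint (hbi μ)]
  have h3 := norm_integral_le_of_norm_le_const (μ := μ)
    (f := fun x => (∫ y, φ (x + y) ∂ν) - φ x) (C := Real.sqrt (∑ i, D i i))
    (by filter_upwards with x; exact hmain x)
  simpa using h3

/-- **GC-GC** -/
theorem t_GC : Pool.Agent.Q278.GC.S_GC := by
  intro k S1 S2 h1 h2 φ η hφ hL hη
  rcases Nat.eq_zero_or_pos k with rfl | hk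
  · have : S1 = S2 := by
      ext i
      exact i.elim0
    rw [this]
    simp
  have hk1 : (1 : ℝ) ≤ k := by exact_mod_cast hk
  have hη0 : 0 ≤ η := (abs_nonneg _).trans (hη ⟨0, hk⟩ ⟨0, hk⟩)
  set c : ℝ := k * η with hc
  have hc0 : 0 ≤ c := by positivity
  have hI : (c • (1 : Matrix (Fin k) (Fin k) ℝ)).PosSemidef := Matrix.PosSemidef.one.smul hc0
  set D : Matrix (Fin k) (Fin k) ℝ := S2 + c • (1 : Matrix (Fin k) (Fin k) ℝ) - S1 with hD
  have hDp : D.PosSemidef := by
    refine Matrix.PosSemidef.of_dotProduct_mulVec_nonneg ?_ ?_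
    · exact ((h2.isHermitian.add hI.isHermitian).sub h1.isHermitian)
    · intro x
      have e : star x ⬝ᵥ D *ᵥ x = (∑ i, ∑ j, x i * ((S2 i j - S1 i j) * x j)) + c * ∑ i, x i ^ 2 := by
        rw [hD, Matrix.sub_mulVec, Matrix.add_mulVec, Matrix.smul_mulVec, Matrix.one_mulVec]
        simp only [dotProduct, Matrix.mulVec, Pi.sub_apply, Pi.add_apply, Pi.smul_apply,
          smul_eq_mul, star_trivial]
        rw [Finset.mul_sum, ← Finset.sum_add_distrib]
        refine Finset.sum_congr rfl fun i _ => ?_
        have : ∑ j, x i * ((S2 i j - S1 i j) * x j) =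
            x i * (∑ j, S2 i j * x j - ∑ j, S1 i j * x j) := by
          rw [← Finset.sum_sub_distrib, Finset.mul_sum]
          refine Finset.sum_congr rfl fun j _ => ?_
          ring
        rw [this]
        ring
      rw [e]
      have h3 : |∑ i, ∑ j, x i * ((S2 i j - S1 i j) * x j)| ≤ η * (∑ i, |x i|) ^ 2 := by
        calc |∑ i, ∑ j, x i * ((S2 i j - S1 i j) * x j)|
            ≤ ∑ i, ∑ j, |x i * ((S2 i j - S1 i j) * x j)| :=
              (Finset.abs_sum_le_sum_abs _ _).trans
                (Finset.sum_le_sum fun i _ => Finset.abs_sum_le_sum_abs _ _)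
          _ ≤ ∑ i, ∑ j, η * (|x i| * |x j|) := by
              refine Finset.sum_le_sum fun i _ => Finset.sum_le_sum fun j _ => ?_
              rw [abs_mul, abs_mul]
              have g1 : |S2 i j - S1 i j| ≤ η := by
                rw [abs_sub_comm]
                exact hη i j
              have g2 := abs_nonneg (x i)
              have g3 := abs_nonneg (x j)
              calc |x i| * (|S2 i j - S1 i j| * |x j|) ≤ |x i| * (η * |x j|) := by gcongr
                _ = η * (|x i| * |x j|) := by ring
          _ = η * (∑ i, |x i|) ^ 2 := by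
              rw [sq, Finset.sum_mul_sum, Finset.mul_sum]
              refine Finset.sum_congr rfl fun i _ => ?_
              rw [Finset.mul_sum]
      have h4 : (∑ i, |x i|) ^ 2 ≤ k * ∑ i, x i ^ 2 := by
        have := sq_sum_le_card_mul_sum_sq (s := Finset.univ) (f := fun i : Fin k => |x i|)
        simpa using this
      have h5 := (abs_le.mp h3).1
      have h6 : η * (∑ i, |x i|) ^ 2 ≤ c * ∑ i, x i ^ 2 := by
        rw [hc]
        nlinarith
      linarith
  have hs1 := step h1 hDp φ hφ hL
  have hs2 := step h2 hI φ hφ hL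
  have e1 : S1 + D = S2 + c • (1 : Matrix (Fin k) (Fin k) ℝ) := by
    rw [hD]
    abel
  rw [e1] at hs1
  have ht1 : ∑ i, D i i ≤ 2 * (k ^ 2 * η) := by
    have : ∀ i, D i i ≤ η + c := by
      intro i
      have g := (abs_le.mp (hη i i)).1
      rw [hD]
      simp only [Matrix.sub_apply, Matrix.add_apply, Matrix.smul_apply, Matrix.one_apply_eq,
        smul_eq_mul, mul_one]
      linarith
    calc ∑ i, D i i ≤ ∑ _i : Fin k, (η + c) := Finset.sum_le_sum fun i _ => this i
      _ = k * (η + c) := by
        simp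
        ring
      _ ≤ _ := by
        rw [hc]
        nlinarith [mul_nonneg (show (0 : ℝ) ≤ k by linarith) hη0]
  have ht2 : ∑ i, (c • (1 : Matrix (Fin k) (Fin k) ℝ)) i i = k ^ 2 * η := by
    simp [hc]
    ring
  have hk0 : (0 : ℝ) ≤ k := by linarith
  have g1 : Real.sqrt (∑ i, D i i) ≤ Real.sqrt 2 * (k * Real.sqrt η) := by
    refine (Real.sqrt_le_sqrt ht1).trans (le_of_eq ?_)
    rw [Real.sqrt_mul (by norm_num), Real.sqrt_mul (by positivity), Real.sqrt_sq hk0]
  have g2 : Real.sqrt (∑ i, (c • (1 : Matrix (Fin k) (Fin k) ℝ)) i i) = k * Real.sqrt η := by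
    rw [ht2, Real.sqrt_mul (by positivity), Real.sqrt_sq hk0]
  rw [g2] at hs2
  have g3 : Real.sqrt 2 ≤ 2 := by
    rw [Real.sqrt_le_left (by norm_num)]
    norm_num
  have g4 : 0 ≤ k * Real.sqrt η := by positivity
  have a1 := abs_le.mp (hs1.trans g1)
  have a2 := abs_le.mp hs2
  rw [abs_le]
  constructor <;> nlinarith [a1.1, a1.2, a2.1, a2.2]

end Pool.Agent.Q241.GC
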